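import Mathlib

namespace Pool.Agent.H.MP_cf7092_nt

open Finset

lemma sum_fixed {α : Type} [Fintype α] [DecidableEq α] (p : ℕ) [hp : Fact p.Prime]
    (f : α → α) (hf : ∀ a, f^[p] a = a) (w : α → ZMod p) (hw : ∀ a, w (f a) = w a) :
    ∑ a, w a = ∑ a with f a = a, w a := by
  rw [← sum_fiberwise univ w w, ← sum_fiberwise (univ.filter fun a => f a = a) w w]
  refine sum_congr rfl fun v _ => ?_
  rw [sum_congr rfl (g := fun _ => v) (fun a ha => (mem_filter.1 ha).2),
    sum_congr rfl (g := fun _ => v) (fun a ha => (mem_filter.1 ha).2)]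
  simp only [sum_const, nsmul_eq_mul]
  congr 1
  let g : Function.End {a // w a = v} := fun a => ⟨f a.1, by rw [hw]; exact a.2⟩
  have hg : ∀ k (a : {a // w a = v}), ((g ^ k) a).1 = f^[k] a.1 := by
    intro k
    induction k with
    | zero => intro a; rfl
    | succ k ih => intro a; rw [pow_succ, Function.iterate_succ_apply]; exact ih (g a)
  have h1 : g ^ p ^ 1 = 1 := by
    funext a; apply Subtype.ext; rw [pow_one, hg, hf]; rfl
  have := Equiv.Perm.card_fixedPoints_modEq h1
  rw [← ZMod.natCast_eq_natCast_iff] at this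
  rw [← Fintype.card_subtype, this]
  congr 1
  rw [filter_filter, ← Fintype.card_subtype]
  refine Fintype.card_congr ⟨fun a => ⟨a.1.1, ⟨congrArg Subtype.val a.2, a.1.2⟩⟩,
    fun a => ⟨⟨a.1, a.2.2⟩, Subtype.ext a.2.1⟩, fun _ => rfl, fun _ => rfl⟩

lemma per_circ (p : ℕ) [hp : Fact p.Prime] (c : ZMod p → ZMod p) :
    ∑ σ : Equiv.Perm (ZMod p), ∏ i, c (σ i - i) = ∑ d, c d := by
  let f : Equiv.Perm (ZMod p) → Equiv.Perm (ZMod p) :=
    fun σ => Equiv.addRight (-1 : ZMod p) * σ * Equiv.addRight (1 : ZMod p)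
  have hk : ∀ k σ i, (f^[k] σ) i = σ (i + k) - k := by
    intro k
    induction k with
    | zero => simp
    | succ k ih =>
      intro σ i
      rw [Function.iterate_succ_apply']
      simp only [f, Equiv.Perm.mul_apply, Equiv.coe_addRight, ih]
      push_cast
      rw [show i + 1 + (k : ZMod p) = i + (k + 1) by ring]; ring
  rw [sum_fixed p f (fun σ => by ext i; simp [hk])]
  · symm
    refine sum_bij (fun d _ => Equiv.addRight d) ?_ ?_ ?_ ?_
    · intro d _
      simp only [mem_filter, mem_univ, true_and]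
      ext i; simp [f]; ring
    · intro d _ e _ h
      simpa using congrArg (fun σ : Equiv.Perm (ZMod p) => σ 0) h
    · intro σ hσ
      have h := (mem_filter.1 hσ).2
      refine ⟨σ 0, mem_univ _, ?_⟩
      ext i
      have := hk i.val σ 0
      rw [Function.iterate_fixed h] at this
      simp only [ZMod.natCast_val, ZMod.cast_id', id_eq, zero_add] at this
      simp [this]
    · intro d _
      simp [ZMod.card, ZMod.pow_card]
  · intro σ
    simp only [f, Equiv.Perm.mul_apply, Equiv.coe_addRight]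
    refine Fintype.prod_equiv (Equiv.addRight (1 : ZMod p)) _ _ fun i => ?_
    simp only [Equiv.coe_addRight]; congr 1; ring

lemma alt_sum (m : ℕ) : ∑ d ∈ range (2 * m + 1), (-1 : ℤ) ^ d * d = m := by
  induction m with
  | zero => simp
  | succ m ih =>
    rw [show 2 * (m + 1) + 1 = 2 * m + 1 + 1 + 1 by ring, sum_range_succ, sum_range_succ, ih]
    simp only [pow_succ, pow_mul]; push_cast; ring

lemma abs_eq (p : ℕ) [hp : Fact p.Prime] (ho : Odd p) (j k : ZMod p) :
    ((|(j.val : ℤ) - k.val| : ℤ) : ZMod p) =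
      (-1) ^ j.val * (-1) ^ k.val * ((-1) ^ (j - k).val * (j - k)) := by
  rcases le_or_gt k.val j.val with h | h
  · rw [abs_of_nonneg (by omega), ZMod.val_sub h]
    obtain ⟨d, hd⟩ := Nat.exists_eq_add_of_le h
    have : (-1 : ZMod p) ^ j.val * (-1) ^ k.val * (-1) ^ (j.val - k.val) = 1 := by
      rw [← pow_add, ← pow_add]; exact Even.neg_one_pow ⟨j.val, by omega⟩
    push_cast; simp only [ZMod.natCast_val, ZMod.cast_id', id_eq]
    rw [← mul_assoc, this, one_mul]
  · rw [abs_of_neg (by omega)]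
    have hv : (j - k).val = p + j.val - k.val := by
      have h1 : j - k = ((p + j.val - k.val : ℕ) : ZMod p) := by
        rw [Nat.cast_sub (by have := k.val_lt; omega)]; simp
      rw [h1, ZMod.val_cast_of_lt (by have := k.val_lt; omega)]
    have : (-1 : ZMod p) ^ j.val * (-1) ^ k.val * (-1) ^ (j - k).val = -1 := by
      rw [← pow_add, ← pow_add, hv]
      obtain ⟨m, hm⟩ := ho
      exact Odd.neg_one_pow ⟨m + j.val, by have := k.val_lt; omega⟩
    push_cast; simp only [ZMod.natCast_val, ZMod.cast_id', id_eq]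
    rw [← mul_assoc, this]; ring

lemma main (p : ℕ) [hp : Fact p.Prime] (ho : Odd p) (t : ℤ) :
    ((2 * ∑ σ : Equiv.Perm (ZMod p), ∏ i, (|((σ i).val : ℤ) - i.val| +
      if σ i = i then t else 0) : ℤ) : ZMod p) = 2 * t - 1 := by
  let c : ZMod p → ZMod p := fun d => (-1) ^ d.val * d + if d = 0 then (t : ZMod p) else 0
  have h1 : ∀ j k : ZMod p, ((|(j.val : ℤ) - k.val| + if j = k then t else 0 : ℤ) : ZMod p) =
      (-1) ^ j.val * (-1) ^ k.val * c (j - k) := by
    intro j k
    rw [Int.cast_add, abs_eq p ho]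
    simp only [c, sub_eq_zero]
    by_cases h : j = k
    · subst h; simp [← pow_add, ← two_mul, pow_mul]
    · simp [h]
  rw [Int.cast_mul, Int.cast_sum]
  simp only [Int.cast_prod, h1]
  have h2 : ∀ σ : Equiv.Perm (ZMod p), ∏ i, ((-1 : ZMod p) ^ (σ i).val * (-1) ^ i.val *
      c (σ i - i)) = ∏ i, c (σ i - i) := by
    intro σ
    rw [prod_mul_distrib, prod_mul_distrib,
      Equiv.prod_comp σ (fun i => (-1 : ZMod p) ^ i.val), ← prod_mul_distrib]
    simp [← pow_add, ← two_mul, pow_mul]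
  simp only [h2]
  rw [per_circ p c]
  simp only [c, sum_add_distrib, sum_ite_eq', mem_univ, if_true]
  obtain ⟨m, hm⟩ := ho
  have h3 : ∑ d : ZMod p, (-1 : ZMod p) ^ d.val * d = m := by
    have := congrArg (Int.cast : ℤ → ZMod p) (alt_sum m)
    push_cast at this
    rw [← this, ← hm]
    refine sum_bij (fun d _ => d.val) (fun d _ => mem_range.2 d.val_lt)
      (fun a _ b _ h => ZMod.val_injective p h)
      (fun b hb => ⟨b, mem_univ _, ZMod.val_cast_of_lt (mem_range.1 hb)⟩) ?_
    intro d _; simp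
  have h4 : (2 * m + 1 : ZMod p) = 0 := by
    have : ((2 * m + 1 : ℕ) : ZMod p) = 0 := by rw [← hm]; simp
    exact_mod_cast this
  rw [h3]; push_cast; linear_combination h4

lemma main_fin (p : ℕ) (hp : p.Prime) (ho : Odd p) (t : ℤ) :
    2 * Matrix.permanent (Matrix.of fun j k : Fin p => |((j : ℕ) : ℤ) - ((k : ℕ) : ℤ)| +
      if j = k then t else 0) ≡ 2 * t - 1 [ZMOD p] := by
  have : Fact p.Prime := ⟨hp⟩
  rw [← ZMod.intCast_eq_intCast_iff]
  obtain ⟨q, rfl⟩ : ∃ q, p = q + 1 := ⟨p - 1, by have := hp.pos; omega⟩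
  have := main (q + 1) ho t
  rw [Int.cast_sub, Int.cast_mul 2 t]
  exact this

end Pool.Agent.H.MP_cf7092_nt
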